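import Mathlib

set_option autoImplicit false

namespace Pool.Agent.Results.MP_d857f1_al.CommensurateReduction

open Subgroup
open scoped Pointwise

universe u

section

variable {G : Type u} [Group G]

/-- finite index of `B ⊔ K`. -/
lemma finiteIndex_sup (a b : G)
    (hG : ∀ g : G, ∃ i k j : ℤ, g = a ^ i * b ^ k * a ^ j)
    (K : Subgroup G) (R : Finset G)
    (hR : ∀ i : ℤ, ∃ r ∈ R, r⁻¹ * a ^ i ∈ K) : (zpowers b ⊔ K).FiniteIndex := by
  classical
  set H := zpowers b ⊔ K with hH
  have hcov : ⋃ p ∈ R ×ˢ R, (p.1 * p.2⁻¹) • ((H.map (MulAut.conj p.2).toMonoidHom : Subgroup G) : Set G)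
      = Set.univ := by
    rw [Set.eq_univ_iff_forall]
    intro g
    obtain ⟨i, k, j, rfl⟩ := hG g
    obtain ⟨r, hr, hrk⟩ := hR i
    obtain ⟨r', hr', hrk'⟩ := hR (-j)
    simp only [Set.mem_iUnion]
    refine ⟨(r, r'), Finset.mem_product.mpr ⟨hr, hr'⟩, ?_⟩
    rw [Set.mem_smul_set]
    refine ⟨r' * ((r⁻¹ * a ^ i) * b ^ k * (r'⁻¹ * a ^ (-j))⁻¹) * r'⁻¹, ?_, ?_⟩
    · refine ⟨(r⁻¹ * a ^ i) * b ^ k * (r'⁻¹ * a ^ (-j))⁻¹, ?_, ?_⟩
      · refine H.mul_mem (H.mul_mem ?_ ?_) (H.inv_mem ?_)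
        · exact (le_sup_right : K ≤ H) hrk
        · exact (le_sup_left : zpowers b ≤ H) (zpow_mem (mem_zpowers b) k)
        · exact (le_sup_right : K ≤ H) hrk'
      · simp [MulAut.conj_apply]
    · simp only [smul_eq_mul]
      group
  obtain ⟨p, -, hp⟩ := Subgroup.exists_finiteIndex_of_leftCoset_cover hcov
  constructor
  have h1 := hp.index_ne_zero
  have h2 : (H.map (MulAut.conj p.2).toMonoidHom).index = H.index := by
    apply Subgroup.index_map_of_bijective
    exact (MulAut.conj p.2).bijective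
  rwa [h2] at h1

/-- solubility of `B ⊔ K` for `K` normal and both cyclic. -/
lemma solvable_sup (a b : G) (K : Subgroup G) (hK : K ≤ zpowers a) (hn : K.Normal) :
    Group.IsSolvable (zpowers b ⊔ K : Subgroup G) := by
  set H := zpowers b ⊔ K with hH
  have hKH : K ≤ H := le_sup_right
  have hmap : H.map (QuotientGroup.mk' K) = (zpowers b).map (QuotientGroup.mk' K) := by
    rw [hH, Subgroup.map_sup]
    have : K.map (QuotientGroup.mk' K) = ⊥ := by
      rw [eq_bot_iff]
      rintro x ⟨y, hy, rfl⟩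
      simp only [Subgroup.mem_bot, QuotientGroup.mk'_apply]
      exact (QuotientGroup.eq_one_iff y).mpr hy
    rw [this, sup_bot_eq]
  let g : H →* ((zpowers b).map (QuotientGroup.mk' K)) :=
    ((QuotientGroup.mk' K).comp H.subtype).codRestrict _ (by
      intro x
      rw [← hmap]
      exact ⟨x.1, x.2, rfl⟩)
  have i1 : Group.IsSolvable K := by
    apply Group.isSolvable_of_comm
    rintro ⟨x, hx⟩ ⟨y, hy⟩
    obtain ⟨i, rfl⟩ := hK hx
    obtain ⟨j, rfl⟩ := hK hy
    ext
    simp only [Subgroup.coe_mul, ← zpow_add, add_comm]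
  have i2 : Group.IsSolvable ((zpowers b).map (QuotientGroup.mk' K)) := by
    apply Group.isSolvable_of_comm
    rintro ⟨x, x', ⟨i, rfl⟩, rfl⟩ ⟨y, y', ⟨j, rfl⟩, rfl⟩
    ext
    simp only [Subgroup.coe_mul, ← map_mul, ← zpow_add, add_comm]
  refine Group.isSolvable_of_ker_le_range (Subgroup.inclusion hKH) g ?_
  intro x hx
  rw [MonoidHom.mem_ker] at hx
  have h1 : (QuotientGroup.mk' K) x.1 = 1 := congrArg Subtype.val hx
  have h2 : x.1 ∈ K := (QuotientGroup.eq_one_iff x.1).mp h1
  exact ⟨⟨x.1, h2⟩, by ext; rfl⟩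

lemma finish (a b : G)
    (hG : ∀ g : G, ∃ i k j : ℤ, g = a ^ i * b ^ k * a ^ j)
    (K : Subgroup G) (R : Finset G)
    (hR : ∀ i : ℤ, ∃ r ∈ R, r⁻¹ * a ^ i ∈ K) (hK : K ≤ zpowers a) (hn : K.Normal) :
    ∃ N : Subgroup G, N.Normal ∧ N.index ≠ 0 ∧ Group.IsSolvable N := by
  have h1 := finiteIndex_sup a b hG K R hR
  have h2 := solvable_sup a b K hK hn
  refine ⟨(zpowers b ⊔ K).normalCore, inferInstance, ?_, ?_⟩
  · exact Subgroup.FiniteIndex.index_ne_zero
  · exact Group.isSolvable_of_isSolvable_injective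
      (Subgroup.inclusion_injective (Subgroup.normalCore_le (zpowers b ⊔ K)))

lemma pow_conj (a b : G) (m0 n0 : ℤ) (h : b * a ^ m0 * b⁻¹ = a ^ n0) (k : ℕ) :
    b ^ k * a ^ (m0 ^ k) * (b ^ k)⁻¹ = a ^ (n0 ^ k) := by
  induction k with
  | zero => simp
  | succ k ih =>
    have h1 : b * a ^ (m0 ^ (k + 1)) * b⁻¹ = (a ^ (m0 ^ k)) ^ n0 := by
      rw [pow_succ', zpow_mul, ← conj_zpow, h, ← zpow_mul, ← zpow_mul, mul_comm]
    calc b ^ (k + 1) * a ^ (m0 ^ (k + 1)) * (b ^ (k + 1))⁻¹
        = b ^ k * (b * a ^ (m0 ^ (k + 1)) * b⁻¹) * (b ^ k)⁻¹ := by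
          rw [pow_succ, mul_inv_rev]; group
      _ = (b ^ k * a ^ (m0 ^ k) * (b ^ k)⁻¹) ^ n0 := by rw [h1, conj_zpow]
      _ = a ^ (n0 ^ (k + 1)) := by rw [ih, ← zpow_mul, pow_succ]

end

/-- **Theorem.** Let `G = ABA` with `A = ⟨a⟩` and `B = ⟨b⟩` cyclic. If `A` is finite, or if
`A ∩ b A b⁻¹ ≠ 1`, then `G` has a soluble normal subgroup of finite index. -/
theorem result : ∀ (G : Type u) [Group G] (a b : G),
    (∀ g : G, ∃ x ∈ zpowers a, ∃ y ∈ zpowers b, ∃ z ∈ zpowers a, g = x * y * z) →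
    (Finite (zpowers a) ∨ ∃ x ∈ zpowers a, x ≠ 1 ∧ b * x * b⁻¹ ∈ zpowers a) →
    ∃ N : Subgroup G, N.Normal ∧ N.index ≠ 0 ∧ Group.IsSolvable N := by
  classical
  intro G _ a b hG0 hcase
  have hG : ∀ g : G, ∃ i k j : ℤ, g = a ^ i * b ^ k * a ^ j := by
    intro g
    obtain ⟨x, ⟨i, rfl⟩, y, ⟨k, rfl⟩, z, ⟨j, rfl⟩, h⟩ := hG0 g
    exact ⟨i, k, j, h⟩
  by_cases hfin : Finite (zpowers a)
  · -- `A` finite: take `K = 1`
    have : Fintype (zpowers a) := Fintype.ofFinite _
    refine finish a b hG ⊥ ((Finset.univ : Finset (zpowers a)).image Subtype.val) ?_ bot_le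
      inferInstance
    intro i
    exact ⟨a ^ i, Finset.mem_image.mpr ⟨⟨a ^ i, zpow_mem (mem_zpowers a) i⟩, Finset.mem_univ _, rfl⟩,
      by simp⟩
  · rcases hcase with h | ⟨x, ⟨m0, rfl⟩, hx1, ⟨n0, hn0⟩⟩
    · exact absurd h hfin
    have hinj : ∀ i j : ℤ, a ^ i = a ^ j → i = j := by
      have h1 : ¬ IsOfFinOrder a := by
        rw [← finite_zpowers]; exact hfin
      exact fun i j h => (injective_zpow_iff_not_isOfFinOrder.mpr h1) h
    simp only at hx1 hn0
    have hm0 : m0 ≠ 0 := by rintro rfl; exact hx1 (zpow_zero a)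
    have hn00 : n0 ≠ 0 := by
      rintro rfl
      rw [zpow_zero] at hn0
      exact hx1 (by simpa using (conj_eq_one_iff.mp hn0.symm))
    have hb : b * a ^ m0 * b⁻¹ = a ^ n0 := hn0.symm
    by_cases habs : m0.natAbs = n0.natAbs
    · -- `K = ⟨a ^ m0⟩` is normal
      have hcases : n0 = m0 ∨ n0 = -m0 := by
        have := Int.natAbs_eq_natAbs_iff.mp habs
        omega
      have hconj : ∀ t : ℤ, b * (a ^ m0) ^ t * b⁻¹ = (a ^ n0) ^ t := by
        intro t
        rw [← conj_zpow, hb]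
      obtain ⟨e, he1, he2⟩ : ∃ e : ℤ, n0 = m0 * e ∧ e * e = 1 := by
        rcases hcases with h | h
        · exact ⟨1, by rw [h]; ring, by norm_num⟩
        · exact ⟨-1, by rw [h]; ring, by norm_num⟩
      have hconj' : ∀ t : ℤ, b * (a ^ m0) ^ t * b⁻¹ = (a ^ m0) ^ (e * t) := by
        intro t
        rw [hconj, he1, zpow_mul, ← zpow_mul]
      have hbn : b ∈ normalizer (zpowers (a ^ m0) : Subgroup G) := by
        rw [mem_normalizer_iff]
        intro h
        constructor
        · rintro ⟨t, rfl⟩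
          exact ⟨e * t, (hconj' t).symm⟩
        · rintro ⟨t, ht⟩
          have h1 := hconj' (e * t)
          rw [← mul_assoc, he2, one_mul] at h1
          have h2 : b * (a ^ m0) ^ (e * t) * b⁻¹ = b * h * b⁻¹ := by rw [h1]; exact ht
          have h3 := mul_left_cancel (mul_right_cancel h2)
          exact ⟨e * t, h3⟩
      have han : a ∈ normalizer (zpowers (a ^ m0) : Subgroup G) := by
        rw [mem_normalizer_iff]
        intro h
        constructor
        · rintro ⟨t, rfl⟩
          refine ⟨t, ?_⟩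
          simp only
          group
        · rintro ⟨t, ht⟩
          refine ⟨t, ?_⟩
          simp only at ht ⊢
          have : h = a⁻¹ * (a * h * a⁻¹) * a := by group
          rw [this, ← ht]
          group
      have hnorm : (zpowers (a ^ m0)).Normal := by
        constructor
        intro x hx g
        obtain ⟨i, k, j, rfl⟩ := hG g
        have hg : a ^ i * b ^ k * a ^ j ∈ normalizer (zpowers (a ^ m0) : Subgroup G) :=
          mul_mem (mul_mem (zpow_mem han i) (zpow_mem hbn k)) (zpow_mem han j)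
        exact (mem_normalizer_iff.mp hg x).mp hx
      refine finish a b hG (zpowers (a ^ m0))
        ((Finset.range m0.natAbs).image (fun r : ℕ => a ^ (r : ℤ))) ?_
        (zpowers_le.mpr (zpow_mem (mem_zpowers a) m0)) hnorm
      intro i
      have h1 := Int.emod_nonneg i hm0
      have h2 := Int.emod_lt_abs i hm0
      rw [Int.abs_eq_natAbs] at h2
      refine ⟨a ^ (((i % m0).toNat : ℕ) : ℤ), Finset.mem_image.mpr ⟨(i % m0).toNat, ?_, rfl⟩, ?_⟩
      · rw [Finset.mem_range]
        omega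
      · rw [Int.toNat_of_nonneg h1, ← zpow_neg, ← zpow_add]
        refine ⟨i / m0, ?_⟩
        simp only
        rw [← zpow_mul]
        congr 1
        have := Int.emod_add_mul_ediv i m0
        linarith
    · -- `A` is normal
      have hgen : ∀ (c : G) (i j m : ℤ), (a ^ i * c * a ^ j) * a ^ m * (a ^ i * c * a ^ j)⁻¹
          = a ^ i * (c * a ^ m * c⁻¹) * a ^ (-i) := by
        intro c i j m
        group
      have hcomm : ∀ g : G, ∃ m n : ℤ, m ≠ 0 ∧ n ≠ 0 ∧ g * a ^ m * g⁻¹ = a ^ n := by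
        intro g
        obtain ⟨i, k, j, rfl⟩ := hG g
        rcases Int.eq_nat_or_neg k with ⟨K, hK | hK⟩
        · refine ⟨m0 ^ K, n0 ^ K, pow_ne_zero _ hm0, pow_ne_zero _ hn00, ?_⟩
          rw [hgen, hK, zpow_natCast, pow_conj a b m0 n0 hb K]
          group
        · refine ⟨n0 ^ K, m0 ^ K, pow_ne_zero _ hn00, pow_ne_zero _ hm0, ?_⟩
          rw [hgen, hK, zpow_neg, zpow_natCast, ← pow_conj a b m0 n0 hb K]
          group
      have hzero : ∀ (K : ℕ) (n : ℤ), n ≠ 0 → b ^ K * a ^ n * (b ^ K)⁻¹ = a ^ n → K = 0 := by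
        intro K n hn h
        by_contra hK
        have h1 : (b ^ K * a ^ n * (b ^ K)⁻¹) ^ (m0 ^ K)
            = (b ^ K * a ^ (m0 ^ K) * (b ^ K)⁻¹) ^ n := by
          rw [conj_zpow, conj_zpow, ← zpow_mul, ← zpow_mul, mul_comm]
        rw [h, pow_conj a b m0 n0 hb K, ← zpow_mul, ← zpow_mul] at h1
        have h2 := hinj _ _ h1
        have h3 : m0 ^ K = n0 ^ K := by
          have : n * m0 ^ K = n * n0 ^ K := by linarith
          exact mul_left_cancel₀ hn this
        have h4 : m0.natAbs ^ K = n0.natAbs ^ K := by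
          rw [← Int.natAbs_pow, ← Int.natAbs_pow, h3]
        exact habs ((Nat.pow_left_injective hK) h4)
      have hnorm : (zpowers a).Normal := by
        constructor
        rintro x ⟨t, rfl⟩ g
        have hga : g * a * g⁻¹ ∈ zpowers a := by
          obtain ⟨m, n, hm, hn, hmn⟩ := hcomm g
          have h1 : (g * a * g⁻¹) ^ m = a ^ n := by rw [conj_zpow, hmn]
          have h2 : (g * a * g⁻¹) * a ^ n * (g * a * g⁻¹)⁻¹ = a ^ n := by
            rw [← h1]
            have h5 : ∀ h : G, h * h ^ m * h⁻¹ = h ^ m := by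
              intro h
              group
            exact h5 _
          obtain ⟨i, k, j, hh⟩ := hG (g * a * g⁻¹)
          rw [hh, hgen] at h2
          have h3 : b ^ k * a ^ n * (b ^ k)⁻¹ = a ^ n := by
            have : b ^ k * a ^ n * (b ^ k)⁻¹
                = a ^ (-i) * (a ^ i * (b ^ k * a ^ n * (b ^ k)⁻¹) * a ^ (-i)) * a ^ i := by group
            rw [this, h2]
            group
          have hk : k = 0 := by
            rcases Int.eq_nat_or_neg k with ⟨K, hK | hK⟩
            · rw [hK, zpow_natCast] at h3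
              rw [hK, hzero K n hn h3]; rfl
            · rw [hK, zpow_neg, zpow_natCast, inv_inv] at h3
              have h4 : b ^ K * a ^ n * (b ^ K)⁻¹ = a ^ n := by
                nth_rewrite 1 [← h3]
                group
              rw [hK, hzero K n hn h4]; rfl
          rw [hh, hk, zpow_zero, mul_one, ← zpow_add]
          exact ⟨i + j, rfl⟩
        simp only
        rw [← conj_zpow]
        exact zpow_mem hga t
      refine finish a b hG (zpowers a) {1} ?_ le_rfl hnorm
      intro i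
      exact ⟨1, by simp, by simp⟩

end Pool.Agent.Results.MP_d857f1_al.CommensurateReduction
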